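import Pool.Agent.Helper31.BQ.Stmts2

/-! Sheet BQ, row HP: finite-dimensional projections of a separable Hilbert space. -/

set_option autoImplicit false

namespace Pool.Agent.Helper98.BQ

open Filter Topology

theorem st_HP : Pool.Agent.Helper31.BQ.ST_HP := by
  intro H _ _ _ _
  let U : ℕ → Submodule ℝ H := fun n =>
    Submodule.span ℝ ((TopologicalSpace.denseSeq H) '' (Finset.range n : Set ℕ))
  have hfin : ∀ n, FiniteDimensional ℝ (U n) := fun n =>
    FiniteDimensional.span_of_finite ℝ ((Finset.finite_toSet (Finset.range n)).image _)
  have hmono : Monotone U := by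
    intro n m hnm
    apply Submodule.span_mono
    apply Set.image_mono
    intro i hi
    simp only [Finset.coe_range, Set.mem_Iio] at hi ⊢
    omega
  have hdense : ⊤ ≤ (⨆ n, U n).topologicalClosure := by
    intro x _
    have h1 : x ∈ closure (Set.range (TopologicalSpace.denseSeq H)) :=
      TopologicalSpace.denseRange_denseSeq H x
    have h2 : Set.range (TopologicalSpace.denseSeq H) ⊆ ((⨆ n, U n : Submodule ℝ H) : Set H) := by
      rintro y ⟨i, rfl⟩
      have h3 : TopologicalSpace.denseSeq H i ∈ U (i + 1) :=
        Submodule.subset_span ⟨i, by simp, rfl⟩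
      exact (le_iSup U (i + 1)) h3
    exact closure_mono h2 h1
  refine ⟨fun n => (U n).starProjection, ?_, ?_, ?_, ?_, ?_, ?_⟩
  · intro n
    have h1 : LinearMap.range (((U n).starProjection : H →L[ℝ] H) : H →ₗ[ℝ] H) ≤ U n := by
      rintro y ⟨x, rfl⟩
      exact Submodule.starProjection_apply_mem (U n) x
    exact Submodule.finiteDimensional_of_le h1
  · intro n
    exact Submodule.starProjection_norm_le _
  · intro n x y
    exact Submodule.inner_starProjection_left_eq_right (U n) x y
  · intro n m x hnm
    have h := Submodule.starProjection_comp_starProjection_of_le (hmono hnm)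
    exact congrArg (fun f : H →L[ℝ] H => f x) h
  · intro n m x hnm
    apply Submodule.starProjection_eq_self_iff.2
    exact hmono hnm (Submodule.starProjection_apply_mem (U n) x)
  · intro x
    exact Submodule.starProjection_tendsto_self U hmono x hdense

end Pool.Agent.Helper98.BQ
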